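import Pool.Agent.Q173.KS.Stm

/-!
Project KS, job LIM: limit of the quotients of the generating series.
-/

set_option autoImplicit false

namespace Pool.Agent.Q77.KS

open Pool.Agent.Q173.KS Finset Filter Topology PowerSeries

/-- convergence of the coefficients up to the degree `k` -/
def CV (k : ℕ) (F : ℕ → PowerSeries ℝ) (G : PowerSeries ℝ) : Prop :=
  ∀ j ≤ k, Tendsto (fun N => coeff j (F N)) atTop (𝓝 (coeff j G))

theorem CV.mono {k l : ℕ} {F : ℕ → PowerSeries ℝ} {G : PowerSeries ℝ} (h : CV k F G)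
    (hl : l ≤ k) : CV l F G := fun j hj => h j (hj.trans hl)

theorem CV.mul {k : ℕ} {F F' : ℕ → PowerSeries ℝ} {G G' : PowerSeries ℝ} (h : CV k F G)
    (h' : CV k F' G') : CV k (fun N => F N * F' N) (G * G') := by
  intro j hj
  simp only [coeff_mul]
  refine tendsto_finsetSum _ fun x hx => ?_
  have := HasAntidiagonal.mem_antidiagonal.mp hx
  exact (h x.1 (by omega)).mul (h' x.2 (by omega))

theorem coeff_inv_one {H : PowerSeries ℝ} (hH : constantCoeff H = 1) {j : ℕ} (h0 : j ≠ 0) :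
    coeff j H⁻¹ = -∑ x ∈ antidiagonal j, if x.2 < j then coeff x.1 H * coeff x.2 H⁻¹ else 0 := by
  rw [coeff_inv, if_neg h0, hH, inv_one, neg_one_mul]

theorem CV.inv {k : ℕ} {F : ℕ → PowerSeries ℝ} {G : PowerSeries ℝ} (h : CV k F G)
    (hF : ∀ N, constantCoeff (F N) = 1) (hG : constantCoeff G = 1) :
    CV k (fun N => (F N)⁻¹) G⁻¹ := by
  intro j
  induction j using Nat.strong_induction_on with
  | _ j ih =>
    intro hj
    by_cases h0 : j = 0
    · subst h0
      simp [hF, hG]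
    · rw [coeff_inv_one hG h0]
      have h1 : (fun N => coeff j (F N)⁻¹) = fun N => -∑ x ∈ antidiagonal j,
          if x.2 < j then coeff x.1 (F N) * coeff x.2 (F N)⁻¹ else 0 := by
        funext N
        exact coeff_inv_one (hF N) h0
      rw [h1]
      refine Tendsto.neg (tendsto_finsetSum _ fun x hx => ?_)
      have hx' := HasAntidiagonal.mem_antidiagonal.mp hx
      by_cases hlt : x.2 < j
      · simp only [hlt, if_true]
        exact (h x.1 (by omega)).mul (ih x.2 hlt (by omega))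
      · simp only [hlt, if_false]
        exact tendsto_const_nhds

/-- the coefficients of the recursion -/
noncomputable def be (N : ℕ) : ℝ := (N : ℝ) ^ 2 / (4 * (N : ℝ) ^ 2 - 1)

theorem be_lim : Tendsto be atTop (𝓝 (1 / 4)) := by
  have h1 : Tendsto (fun N : ℕ => 1 / (4 - ((N : ℝ)⁻¹) ^ 2)) atTop (𝓝 (1 / (4 - 0 ^ 2))) := by
    refine Tendsto.div tendsto_const_nhds (tendsto_const_nhds.sub
      ((tendsto_inv_atTop_nhds_zero_nat).pow 2)) (by norm_num)
  have h2 : (1 : ℝ) / (4 - 0 ^ 2) = 1 / 4 := by norm_num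
  rw [h2] at h1
  refine h1.congr' ?_
  filter_upwards [eventually_ge_atTop 1] with N hN
  have hN' : (1 : ℝ) ≤ N := by exact_mod_cast hN
  have h3 : (4 : ℝ) * (N : ℝ) ^ 2 - 1 ≠ 0 := by nlinarith
  have h4 : (4 : ℝ) - ((N : ℝ)⁻¹) ^ 2 ≠ 0 := by
    have : (4 : ℝ) - ((N : ℝ)⁻¹) ^ 2 = (4 * (N : ℝ) ^ 2 - 1) / (N : ℝ) ^ 2 := by
      field_simp
    rw [this]
    positivity
  unfold be
  field_simp

theorem cc_GG (N : ℕ) : constantCoeff (GG N) = 1 := by
  rw [← coeff_zero_eq_constantCoeff_apply, GG, coeff_mk]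
  simp [uu]

theorem cc_ne {F : PowerSeries ℝ} (h : constantCoeff F = 1) : constantCoeff F ≠ 0 := by
  rw [h]; exact one_ne_zero

theorem grec (hREC : S_REC) (N j : ℕ) (h : j + 1 ≤ N) :
    coeff j (GG (N + 1)) = coeff j (GG N - C (be N) * (X ^ 2 * GG (N - 1))) := by
  rw [map_sub, coeff_C_mul]
  rcases j with _ | _ | j
  · rw [coeff_X_pow_mul']
    simp [GG, uu]
  · rw [coeff_X_pow_mul']
    simp [GG, uu]
  · rw [coeff_X_pow_mul']
    simp only [le_add_iff_nonneg_left, zero_le, if_true, GG, coeff_mk]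
    exact hREC N j (by omega)

theorem coeff_mul_congr {A B H : PowerSeries ℝ} {j : ℕ} (h : ∀ i ≤ j, coeff i A = coeff i B) :
    coeff j (A * H) = coeff j (B * H) := by
  rw [coeff_mul, coeff_mul]
  refine Finset.sum_congr rfl fun x hx => ?_
  have := HasAntidiagonal.mem_antidiagonal.mp hx
  rw [h x.1 (by omega)]

/-- the quotients -/
noncomputable def RR (N : ℕ) : PowerSeries ℝ := GG (N + 1) * (GG N)⁻¹

theorem cc_RR (N : ℕ) : constantCoeff (RR N) = 1 := by
  rw [RR, map_mul, constantCoeff_inv, cc_GG, cc_GG]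
  norm_num

theorem RR_inv (N : ℕ) : (RR N)⁻¹ = GG N * (GG (N + 1))⁻¹ := by
  rw [PowerSeries.inv_eq_iff_mul_eq_one (cc_ne (cc_RR N)), RR]
  have h1 := PowerSeries.mul_inv_cancel (GG N) (cc_ne (cc_GG N))
  have h2 := PowerSeries.mul_inv_cancel (GG (N + 1)) (cc_ne (cc_GG (N + 1)))
  calc GG N * (GG (N + 1))⁻¹ * (GG (N + 1) * (GG N)⁻¹)
      = (GG N * (GG N)⁻¹) * (GG (N + 1) * (GG (N + 1))⁻¹) := by ring
    _ = 1 := by rw [h1, h2, one_mul]

theorem RR_rec (hREC : S_REC) (N j : ℕ) (h : j ≤ N) :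
    coeff j (RR (N + 1)) = coeff j (1 - C (be (N + 1)) * (X ^ 2 * (RR N)⁻¹)) := by
  have h1 : coeff j (RR (N + 1))
      = coeff j ((GG (N + 1) - C (be (N + 1)) * (X ^ 2 * GG N)) * (GG (N + 1))⁻¹) := by
    rw [RR]
    exact coeff_mul_congr fun i hi => grec hREC (N + 1) i (by omega)
  rw [h1, RR_inv]
  congr 1
  have h2 := PowerSeries.mul_inv_cancel (GG (N + 1)) (cc_ne (cc_GG (N + 1)))
  linear_combination h2

theorem CV_step {k : ℕ} {F : ℕ → PowerSeries ℝ} {G : PowerSeries ℝ} (h : CV k F G) :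
    CV (k + 2) (fun N => 1 - C (be (N + 1)) * (X ^ 2 * F N)) (1 - C (1 / 4 : ℝ) * (X ^ 2 * G)) := by
  intro j hj
  simp only [map_sub, coeff_C_mul, coeff_X_pow_mul']
  refine tendsto_const_nhds.sub (Tendsto.mul ((tendsto_add_atTop_iff_nat 1).mpr be_lim) ?_)
  by_cases h2 : 2 ≤ j
  · simp only [h2, if_true]
    exact h (j - 2) (by omega)
  · simp only [h2, if_false]
    exact tendsto_const_nhds

theorem RR_step (hREC : S_REC) {k : ℕ} {G : PowerSeries ℝ} (h : CV k RR G)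
    (hG : constantCoeff G = 1) : CV (k + 2) RR (1 - C (1 / 4 : ℝ) * (X ^ 2 * G⁻¹)) := by
  intro j hj
  rw [← tendsto_add_atTop_iff_nat 1]
  refine (CV_step (h.inv cc_RR hG) j hj).congr' ?_
  filter_upwards [eventually_ge_atTop j] with N hN
  exact (RR_rec hREC N j hN).symm

theorem cc_step (G : PowerSeries ℝ) :
    constantCoeff (1 - C (1 / 4 : ℝ) * (X ^ 2 * G)) = 1 := by
  simp

theorem RR_exists (hREC : S_REC) (k : ℕ) : ∃ G : PowerSeries ℝ, constantCoeff G = 1 ∧ CV k RR G := by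
  induction k with
  | zero =>
    refine ⟨1, by simp, fun j hj => ?_⟩
    obtain rfl : j = 0 := by omega
    simp only [coeff_zero_eq_constantCoeff_apply, cc_RR]
    simp
  | succ k ih =>
    obtain ⟨G, h1, h2⟩ := ih
    exact ⟨_, cc_step G⁻¹, (RR_step hREC h2 h1).mono (by omega)⟩

theorem R_exists (hREC : S_REC) : ∃ R : PowerSeries ℝ, constantCoeff R = 1 ∧ (∀ k, CV k RR R) ∧
    R = 1 - C (1 / 4 : ℝ) * (X ^ 2 * R⁻¹) := by
  choose G hG1 hG2 using RR_exists hREC
  have h1 : ∀ k, CV k RR (mk fun j => coeff j (G j)) := by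
    intro k j _
    rw [coeff_mk]
    exact hG2 j j le_rfl
  have h2 : constantCoeff (mk fun j => coeff j (G j)) = 1 := by
    rw [← coeff_zero_eq_constantCoeff_apply, coeff_mk, coeff_zero_eq_constantCoeff_apply, hG1]
  refine ⟨_, h2, h1, ?_⟩
  ext j
  exact tendsto_nhds_unique (h1 j j le_rfl) (RR_step hREC (h1 j) h2 j (by omega))

theorem T_lim {R : PowerSeries ℝ} (hR : ∀ k, CV k RR R) (m k : ℕ) :
    CV m (fun N => GG (N + k) * (GG N)⁻¹) (R ^ k) := by
  induction k with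
  | zero =>
    intro j hj
    have : (fun N => coeff j (GG (N + 0) * (GG N)⁻¹)) = fun _ => coeff j (R ^ 0) := by
      funext N
      rw [Nat.add_zero, PowerSeries.mul_inv_cancel _ (cc_ne (cc_GG N)), pow_zero]
    rw [this]
    exact tendsto_const_nhds
  | succ k ih =>
    have h1 : CV m (fun N => RR (N + k)) R := fun j hj =>
      (tendsto_add_atTop_iff_nat (f := fun N => coeff j (RR N)) k).mpr (hR m j hj)
    have h2 := h1.mul ih
    have h3 : (fun N => RR (N + k) * (GG (N + k) * (GG N)⁻¹))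
        = fun N => GG (N + (k + 1)) * (GG N)⁻¹ := by
      funext N
      rw [RR]
      have h4 := PowerSeries.mul_inv_cancel (GG (N + k)) (cc_ne (cc_GG (N + k)))
      rw [show N + (k + 1) = N + k + 1 from rfl]
      linear_combination (GG (N + k + 1) * (GG N)⁻¹) * h4
    rw [h3, ← pow_succ'] at h2
    exact h2

theorem AA_eq {R : PowerSeries ℝ} (h : R * R = R - C (1 / 4 : ℝ) * X ^ 2) (n : ℕ) :
    AA n = R ^ n + (1 - R) ^ n ∧ AA (n + 1) = R ^ (n + 1) + (1 - R) ^ (n + 1) := by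
  induction n with
  | zero =>
    refine ⟨?_, ?_⟩
    · rw [AA]; ring
    · rw [AA]; ring
  | succ n ih =>
    refine ⟨ih.2, ?_⟩
    rw [AA, ih.1, ih.2]
    linear_combination (-(R ^ n) - (1 - R) ^ n) * h

/-- JOB LIM. -/
theorem lim (hREC : S_REC) : S_LIM := by
  intro k hk j hj
  obtain ⟨R, h0, h1, h2⟩ := R_exists hREC
  have h3 := PowerSeries.inv_mul_cancel R (cc_ne h0)
  have h4 : R * R = R - C (1 / 4 : ℝ) * X ^ 2 := by
    have h5 : R * R = (1 - C (1 / 4 : ℝ) * (X ^ 2 * R⁻¹)) * R := by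
      rw [← h2]
    rw [h5]
    linear_combination (-(C (1 / 4 : ℝ) * X ^ 2)) * h3
  have h6 : coeff j (AA k) = coeff j (R ^ k) := by
    rw [(AA_eq h4 k).1, map_add]
    have h7 : (1 - R) ^ k = X ^ (2 * k) * (C (1 / 4 : ℝ) * R⁻¹) ^ k := by
      have h8 : 1 - R = X ^ 2 * (C (1 / 4 : ℝ) * R⁻¹) := by
        linear_combination -h2
      rw [h8, mul_pow, ← pow_mul]
    rw [h7, coeff_X_pow_mul', if_neg (by omega), add_zero]
  rw [h6]
  exact T_lim h1 k k j hj

end Pool.Agent.Q77.KS
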